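import Mathlib

set_option autoImplicit false

namespace Pool.Agent.Results.MP_77df55_co.BridgeVertex

/-- A bipartite graph with parts `A` and `B`, given by its adjacency relation between `A` and `B`,
is `k`-regular: every vertex of `A` and every vertex of `B` has exactly `k` neighbours. -/
def IsRegular {A B : Type} (k : ℕ) (G : A → B → Prop) : Prop :=
  (∀ a, {b | G a b}.ncard = k) ∧ ∀ b, {a | G a b}.ncard = k

/-- `M` is acceptable for `H`: there are no distinct `a, a'` in `A` and distinct `b, b'` in `B`
with `ab` and `a'b'` in `M` and `ab'` and `a'b` in `H`. -/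
def Acceptable {A B : Type} (M H : A → B → Prop) : Prop :=
  ¬ ∃ a a' : A, ∃ b b' : B, a ≠ a' ∧ b ≠ b' ∧ M a b ∧ M a' b' ∧ H a b' ∧ H a' b

/-- The vertices: a special vertex `none` and three pieces of sizes `p 0, p 1, p 2`. -/
abbrev V (p : Fin 3 → ℕ) : Type := Option (Σ i : Fin 3, ZMod (p i))

/-- The shift used by the `k`-th permutation on the `i`-th piece. -/
def shift (k i : Fin 3) : ℕ :=
  if k = i then 2 else if k = i + 1 then 1 else 3

open Classical in
/-- The three permutations whose union is the graph. -/
noncomputable def perm (p : Fin 3 → ℕ) (k : Fin 3) : Equiv.Perm (V p) :=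
  Equiv.swap none (some ⟨k, 0⟩) * Equiv.swap (some ⟨k, 0⟩) (some ⟨k, 2⟩) *
    Equiv.optionCongr (Equiv.sigmaCongrRight fun i => Equiv.addRight (shift k i : ZMod (p i)))

theorem natCast_ne {p a : ℕ} (ha : 0 < a) (hp : a < p) : (a : ZMod p) ≠ 0 := by
  intro h
  rw [ZMod.natCast_eq_zero_iff] at h
  exact absurd (Nat.le_of_dvd ha h) (by omega)

variable {p : Fin 3 → ℕ}

theorem perm_none (hp : ∀ i, 5 ≤ p i) (k : Fin 3) : perm p k none = some ⟨k, 0⟩ := by
  simp [perm, Equiv.swap_apply_of_ne_of_ne]

theorem perm_other (k i : Fin 3) (h : k ≠ i) (x : ZMod (p i)) :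
    perm p k (some ⟨i, x⟩) = some ⟨i, x + shift k i⟩ := by
  have h1 : (some ⟨i, x + shift k i⟩ : V p) ≠ some ⟨k, 0⟩ := by
    intro h2
    rw [Option.some_inj] at h2
    exact h (congrArg Sigma.fst h2).symm
  have h3 : (some ⟨i, x + shift k i⟩ : V p) ≠ some ⟨k, 2⟩ := by
    intro h2
    rw [Option.some_inj] at h2
    exact h (congrArg Sigma.fst h2).symm
  simp only [perm, Equiv.Perm.mul_apply, Equiv.optionCongr_apply, Option.map_some,
    Equiv.sigmaCongrRight_apply, Sigma.map, id, Equiv.coe_addRight]
  rw [Equiv.swap_apply_of_ne_of_ne h1 h3, Equiv.swap_apply_of_ne_of_ne (by simp) h1]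

theorem two_ne {p : ℕ} (hp : 5 ≤ p) : (2 : ZMod p) ≠ 0 := by
  have := natCast_ne (p := p) (a := 2) (by omega) (by omega)
  exact_mod_cast this

theorem perm_self (hp : ∀ i, 5 ≤ p i) (k : Fin 3) (x : ZMod (p k)) :
    perm p k (some ⟨k, x⟩) = if x = -2 then some ⟨k, 2⟩ else if x = 0 then none
      else some ⟨k, x + 2⟩ := by
  have h2 : (some ⟨k, 2⟩ : V p) ≠ some ⟨k, 0⟩ := by
    simp only [ne_eq, Option.some_inj, Sigma.mk.injEq, heq_eq_eq, true_and]
    exact two_ne (hp k)
  simp only [perm, Equiv.Perm.mul_apply, Equiv.optionCongr_apply, Option.map_some,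
    Equiv.sigmaCongrRight_apply, Sigma.map, id, Equiv.coe_addRight, shift, if_true]
  push_cast
  by_cases h : x = -2
  · subst h
    rw [neg_add_cancel, Equiv.swap_apply_left, Equiv.swap_apply_of_ne_of_ne (by simp) h2, if_pos rfl]
  · rw [if_neg h]
    have h3 : (some ⟨k, x + 2⟩ : V p) ≠ some ⟨k, 0⟩ := by
      simp only [ne_eq, Option.some_inj, Sigma.mk.injEq, heq_eq_eq, true_and]
      intro h4
      exact h (eq_neg_of_add_eq_zero_left h4)
    by_cases h5 : x = 0
    · subst h5
      rw [zero_add, Equiv.swap_apply_right, Equiv.swap_apply_right, if_pos rfl]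
    · rw [if_neg h5, Equiv.swap_apply_of_ne_of_ne h3, Equiv.swap_apply_of_ne_of_ne (by simp) h3]
      simp only [ne_eq, Option.some_inj, Sigma.mk.injEq, heq_eq_eq, true_and]
      intro h6
      exact h5 (by simpa using h6)

theorem perm_ne (hp : ∀ i, 5 ≤ p i) (k : Fin 3) (v : V p) : perm p k v ≠ v := by
  rcases v with _ | ⟨i, x⟩
  · rw [perm_none hp]; simp
  · by_cases h : k = i
    · subst h
      rw [perm_self hp]
      have h4 := natCast_ne (p := p k) (a := 4) (by omega) (by have := hp k; omega)
      have h2 := two_ne (hp k)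
      split_ifs with h5 h6
      · subst h5
        simp only [ne_eq, Option.some_inj, Sigma.mk.injEq, heq_eq_eq, true_and]
        intro h7
        apply h4
        push_cast
        linear_combination h7
      · simp
      · simp only [ne_eq, Option.some_inj, Sigma.mk.injEq, heq_eq_eq, true_and]
        intro h7
        exact h2 (by linear_combination h7)
    · rw [perm_other k i h]
      simp only [ne_eq, Option.some_inj, Sigma.mk.injEq, heq_eq_eq, true_and]
      intro h7
      have h8 : ((shift k i : ℕ) : ZMod (p i)) ≠ 0 := by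
        apply natCast_ne
        · unfold shift; split_ifs <;> omega
        · have := hp i
          unfold shift; split_ifs <;> omega
      exact h8 (by linear_combination h7)

theorem shift_self (k : Fin 3) : shift k k = 2 := by simp [shift]

theorem shift_inj (i : Fin 3) : ∀ k l : Fin 3, k ≠ l → shift k i ≠ shift l i := by
  revert i; decide

theorem shift_lt (k i : Fin 3) : 1 ≤ shift k i ∧ shift k i ≤ 3 := by
  unfold shift; split_ifs <;> omega

theorem natCast_inj_of {p a b : ℕ} (ha : a < p) (hb : b < p)
    (h : (a : ZMod p) = b) : a = b := by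
  rw [ZMod.natCast_eq_natCast_iff'] at h
  rwa [Nat.mod_eq_of_lt ha, Nat.mod_eq_of_lt hb] at h

theorem perm_disj_aux (hp : ∀ i, 5 ≤ p i) (k l : Fin 3) (hkl : k ≠ l) (x : ZMod (p k)) :
    perm p k (some ⟨k, x⟩) ≠ perm p l (some ⟨k, x⟩) := by
  rw [perm_self hp, perm_other l k hkl.symm]
  have h1 := shift_lt l k
  have h2 : shift l k ≠ 2 := by
    have := shift_inj k l k hkl.symm
    rwa [shift_self] at this
  have hpk := hp k
  split_ifs with h5 h6
  · subst h5
    simp only [ne_eq, Option.some_inj, Sigma.mk.injEq, heq_eq_eq, true_and]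
    intro h7
    have h8 : ((4 : ℕ) : ZMod (p k)) = (shift l k : ℕ) := by
      push_cast; linear_combination h7
    have := natCast_inj_of (by omega) (by omega) h8
    omega
  · simp
  · simp only [ne_eq, Option.some_inj, Sigma.mk.injEq, heq_eq_eq, true_and]
    intro h7
    have h8 : ((2 : ℕ) : ZMod (p k)) = (shift l k : ℕ) := by
      push_cast; linear_combination h7
    have := natCast_inj_of (by omega) (by omega) h8
    omega

theorem perm_disj (hp : ∀ i, 5 ≤ p i) (k l : Fin 3) (hkl : k ≠ l) (v : V p) :
    perm p k v ≠ perm p l v := by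
  rcases v with _ | ⟨i, x⟩
  · rw [perm_none hp, perm_none hp]
    simp only [ne_eq, Option.some_inj]
    intro h
    exact hkl (congrArg Sigma.fst h)
  · by_cases h : k = i
    · subst h
      exact perm_disj_aux hp k l hkl x
    · by_cases h' : l = i
      · subst h'
        exact (perm_disj_aux hp l k hkl.symm x).symm
      · rw [perm_other k i h, perm_other l i h']
        simp only [ne_eq, Option.some_inj, Sigma.mk.injEq, heq_eq_eq, true_and, add_right_inj]
        intro h7
        have hpi := hp i
        have h1 := shift_lt k i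
        have h2 := shift_lt l i
        have := natCast_inj_of (by omega) (by omega) h7
        exact shift_inj i k l hkl this

/-- The bipartite graph that is the union of the three permutations. -/
def G (p : Fin 3 → ℕ) (a b : V p) : Prop := ∃ k, perm p k a = b

theorem G_regular (hp : ∀ i, 5 ≤ p i) : IsRegular 3 (G p) := by
  constructor
  · intro a
    have h : {b | G p a b} = Set.range (fun k => perm p k a) := by
      ext b; simp [G]
    rw [h, ← Set.image_univ, Set.ncard_image_of_injective]
    · simp
    · intro k l hkl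
      by_contra hne
      exact perm_disj hp k l hne a hkl
  · intro b
    have h : {a | G p a b} = Set.range (fun k => (perm p k).symm b) := by
      ext a
      simp only [G, Set.mem_ofPred_eq, Set.mem_range]
      constructor
      · rintro ⟨k, hk⟩
        exact ⟨k, by rw [← hk, Equiv.symm_apply_apply]⟩
      · rintro ⟨k, hk⟩
        exact ⟨k, by rw [← hk, Equiv.apply_symm_apply]⟩
    rw [h, ← Set.image_univ, Set.ncard_image_of_injective]
    · simp
    · intro k l hkl
      by_contra hne
      apply perm_disj hp k l hne ((perm p k).symm b)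
      simp only at hkl
      rw [Equiv.apply_symm_apply, hkl, Equiv.apply_symm_apply]

/-- The only edges leaving a piece go from its base point to `none`. -/
theorem G_piece (hp : ∀ i, 5 ≤ p i) (i : Fin 3) (x : ZMod (p i)) (b : V p)
    (h : G p (some ⟨i, x⟩) b) : (∃ y, b = some ⟨i, y⟩) ∨ (x = 0 ∧ b = none) := by
  obtain ⟨k, hk⟩ := h
  by_cases hki : k = i
  · subst hki
    rw [perm_self hp] at hk
    split_ifs at hk with h5 h6
    · exact Or.inl ⟨_, hk.symm⟩
    · exact Or.inr ⟨h6, hk.symm⟩
    · exact Or.inl ⟨_, hk.symm⟩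
  · rw [perm_other k i hki] at hk
    exact Or.inl ⟨_, hk.symm⟩

theorem main (hp : ∀ i, 5 ≤ p i) (M : V p → V p → Prop) (hM : IsRegular 1 M)
    (hMG : ∀ a b, M a b → G p a b) : ¬ Acceptable M (fun a b => a = b) := by
  intro hacc
  have hex : ∀ a, ∃ b, M a b := by
    intro a
    have h := hM.1 a
    rw [Set.ncard_eq_one] at h
    obtain ⟨b, hb⟩ := h
    refine ⟨b, ?_⟩
    have : b ∈ {b | M a b} := by rw [hb]; rfl
    exact this
  choose f hf using hex
  have hinj : Function.Injective f := by
    intro a a' haa
    have h := hM.2 (f a)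
    rw [Set.ncard_eq_one] at h
    obtain ⟨c, hc⟩ := h
    have h1 : a ∈ {x | M x (f a)} := hf a
    have h2 : a' ∈ {x | M x (f a)} := by
      change M a' (f a)
      rw [haa]
      exact hf a'
    rw [hc] at h1 h2
    exact h1.trans h2.symm
  obtain ⟨k, hk⟩ := hMG _ _ (hf none)
  rw [perm_none hp] at hk
  by_cases h0 : f (some ⟨k, 0⟩) = none
  · apply hacc
    refine ⟨none, some ⟨k, 0⟩, some ⟨k, 0⟩, none, by simp, by simp, ?_, ?_, rfl, rfl⟩
    · have := hf none
      rwa [← hk] at this
    · have := hf (some ⟨k, 0⟩)
      rwa [h0] at this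
  · have hstay : ∀ x : ZMod (p k), ∃ y : ZMod (p k), f (some ⟨k, x⟩) = some ⟨k, y⟩ := by
      intro x
      rcases G_piece hp k x _ (hMG _ _ (hf (some ⟨k, x⟩))) with h | ⟨h1, h2⟩
      · exact h
      · subst h1
        exact absurd h2 h0
    choose g hg using hstay
    have : NeZero (p k) := ⟨by have := hp k; omega⟩
    let F : Option (ZMod (p k)) → ZMod (p k) := fun o => o.elim 0 g
    have hF : ∀ o : Option (ZMod (p k)),
        f (o.elim none (fun x => some ⟨k, x⟩)) = some ⟨k, F o⟩ := by
      rintro (_ | x)
      · exact hk.symm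
      · exact hg x
    have hFinj : Function.Injective F := by
      intro o o' hoo
      have h1 : f (o.elim none (fun x => some ⟨k, x⟩)) =
          f (o'.elim none (fun x => some ⟨k, x⟩)) := by
        rw [hF, hF, hoo]
      have h2 := hinj h1
      rcases o with _ | x <;> rcases o' with _ | y <;> simp_all
    have := Fintype.card_le_of_injective F hFinj
    rw [Fintype.card_option] at this
    omega

theorem id_regular {A : Type} : IsRegular 1 (fun a b : A => a = b) := by
  constructor
  · intro a
    have : {b | a = b} = {a} := by ext b; simp [eq_comm]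
    rw [this, Set.ncard_singleton]
  · intro b
    have : {a | a = b} = {b} := by ext a; simp
    rw [this, Set.ncard_singleton]

theorem regular_comap {A B : Type} (k : ℕ) (e : A ≃ B) (G : A → A → Prop) :
    IsRegular k (fun a b : B => G (e.symm a) (e.symm b)) ↔ IsRegular k G := by
  have h1 : ∀ a : B, {b : B | G (e.symm a) (e.symm b)}.ncard = {b | G (e.symm a) b}.ncard := by
    intro a
    have : {b | G (e.symm a) (e.symm b)} = e '' {b | G (e.symm a) b} := by
      ext b; simp [Equiv.image_eq_preimage_symm]
    rw [this, Set.ncard_image_of_injective _ e.injective]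
  have h2 : ∀ b : B, {a : B | G (e.symm a) (e.symm b)}.ncard = {a | G a (e.symm b)}.ncard := by
    intro b
    have : {a | G (e.symm a) (e.symm b)} = e '' {a | G a (e.symm b)} := by
      ext a; simp [Equiv.image_eq_preimage_symm]
    rw [this, Set.ncard_image_of_injective _ e.injective]
  unfold IsRegular
  simp only [h1, h2]
  constructor
  · rintro ⟨h3, h4⟩
    exact ⟨fun a => by simpa using h3 (e a), fun b => by simpa using h4 (e b)⟩
  · rintro ⟨h3, h4⟩
    exact ⟨fun a => h3 _, fun b => h4 _⟩

/-- **Main result.** For every `n ≥ 16` there are a 3-regular bipartite graph `G` and an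
edge-disjoint perfect matching `H` on the parts `Fin n`, `Fin n` such that no perfect matching `M`
of `G` is acceptable for `H`. -/
theorem result (n : ℕ) (hn : 16 ≤ n) : ∃ G H : Fin n → Fin n → Prop,
    IsRegular 3 G ∧ IsRegular 1 H ∧ (∀ a b, ¬ (G a b ∧ H a b)) ∧
    ∀ M : Fin n → Fin n → Prop, IsRegular 1 M → (∀ a b, M a b → G a b) → ¬ Acceptable M H := by
  let p : Fin 3 → ℕ := ![5, 5, n - 11]
  have hp : ∀ i, 5 ≤ p i := by
    intro i
    fin_cases i
    · simp [p]
    · simp [p]
    · simp [p]; omega
  have : ∀ i, NeZero (p i) := fun i => ⟨by have := hp i; omega⟩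
  have hcard : Fintype.card (V p) = n := by
    rw [Fintype.card_option, Fintype.card_sigma]
    simp only [ZMod.card, Fin.sum_univ_three]
    simp [p]
    omega
  have e : V p ≃ Fin n := Fintype.equivFinOfCardEq hcard
  refine ⟨fun a b => G p (e.symm a) (e.symm b), fun a b => e.symm a = e.symm b,
    (regular_comap 3 e (G p)).2 (G_regular hp),
    (regular_comap 1 e (fun a b => a = b)).2 id_regular, ?_, ?_⟩
  · rintro a b ⟨⟨k, hk⟩, h2⟩
    rw [← h2] at hk
    exact perm_ne hp k _ hk
  · intro M hM hMG hacc
    apply main hp (fun a b => M (e a) (e b))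
    · have := (regular_comap 1 e (fun a b => M (e a) (e b))).1
      apply this
      simpa using hM
    · intro a b hab
      simpa using hMG _ _ hab
    · rintro ⟨a, a', b, b', h1, h2, h3, h4, h5, h6⟩
      exact hacc ⟨e a, e a', e b, e b', fun h => h1 (e.injective h), fun h => h2 (e.injective h),
        h3, h4, by simpa using h5, by simpa using h6⟩

end Pool.Agent.Results.MP_77df55_co.BridgeVertex
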